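import Pool.Agent.Helper96.AP.F0b
import Pool.Agent.Helper34.AP.SM

/-!
# Project A' (MP_8958e8), block F0: `FS_b1b1`, `K0d` (with `corr`, `sig_phi`, `TI1` of F0a, F0b)
-/

open MeasureTheory Set Filter Topology
open Pool.Agent.Helper57.Zeta Pool.Agent.Helper57.PC Pool.Agent.Helper57.LH Pool.Agent.Helper78.SG
open Pool.Agent.Helper4.SH (om)
open Pool.Agent.Helper69.FF Pool.Agent.Helper57.KP
open scoped ContDiff

set_option autoImplicit false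

namespace Pool.Agent.AP

private lemma mfz {r : ℕ} (h : ¬ Squarefree r) : mf r = 0 := by
  unfold mf
  rw [ArithmeticFunction.moebius_eq_zero_of_not_squarefree h]
  simp

private lemma mfa (r : ℕ) : |mf r| ≤ 1 / (Nat.totient r : ℝ) := by
  unfold mf
  rw [abs_div, Nat.abs_cast]
  have := ArithmeticFunction.abs_moebius_le_one (n := r)
  have h : |((ArithmeticFunction.moebius r : ℤ) : ℝ)| ≤ 1 := by exact_mod_cast this
  exact div_le_div_of_nonneg_right h (by positivity)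

private lemma cr_abs (r : ℕ) {k : ℤ} (hk : k ≠ 0) : |cr r k| ≤ (k : ℝ) ^ 2 := by
  have h1 : |cr r k| ≤ ∑ d ∈ r.divisors.filter (fun d : ℕ => (d : ℤ) ∣ k), (d : ℝ) := by
    unfold cr
    rw [Finset.sum_filter]
    refine (Finset.abs_sum_le_sum_abs _ _).trans (Finset.sum_le_sum fun d _ => ?_)
    split_ifs
    · rw [abs_mul, Nat.abs_cast]
      have := ArithmeticFunction.abs_moebius_le_one (n := r / d)
      have h : |((ArithmeticFunction.moebius (r / d) : ℤ) : ℝ)| ≤ 1 := by exact_mod_cast this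
      calc (d : ℝ) * |((ArithmeticFunction.moebius (r / d) : ℤ) : ℝ)| ≤ (d : ℝ) * 1 := mul_le_mul_of_nonneg_left h (by positivity)
        _ = _ := mul_one _
    · simp
  have hk0 : 0 < k.natAbs := Int.natAbs_pos.mpr hk
  have h2 : r.divisors.filter (fun d : ℕ => (d : ℤ) ∣ k) ⊆ Finset.Icc 1 k.natAbs := by
    intro d hd
    obtain ⟨h3, h4⟩ := Finset.mem_filter.mp hd
    exact Finset.mem_Icc.mpr ⟨Nat.pos_of_mem_divisors h3, Nat.le_of_dvd hk0 (Int.natCast_dvd.mp h4)⟩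
  calc |cr r k| ≤ ∑ d ∈ Finset.Icc 1 k.natAbs, (d : ℝ) := h1.trans (Finset.sum_le_sum_of_subset_of_nonneg h2 fun _ _ _ => by positivity)
    _ ≤ ∑ d ∈ Finset.Icc 1 k.natAbs, (k.natAbs : ℝ) := Finset.sum_le_sum fun d hd => by exact_mod_cast (Finset.mem_Icc.mp hd).2
    _ = (k.natAbs : ℝ) ^ 2 := by simp [pow_two]
    _ = (k : ℝ) ^ 2 := by
        rw [Nat.cast_natAbs]; push_cast; rw [sq_abs]

private lemma lps {η C : ℝ} (hη : 0 < η) : ∀ᶠ T : ℝ in atTop, C * (1 + Real.log T) ≤ T ^ η := by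
  have h2 : (fun T : ℝ => Real.log T) =o[atTop] fun T : ℝ => T ^ η := isLittleO_log_rpow_atTop hη
  have h3 : (fun _ : ℝ => (1 : ℝ)) =o[atTop] fun T : ℝ => T ^ η :=
    Asymptotics.isLittleO_const_left.mpr (Or.inr ((tendsto_rpow_atTop hη).congr' (by
      filter_upwards [eventually_ge_atTop 0] with T hT
      simp [abs_of_nonneg (Real.rpow_nonneg hT _)])))
  have h6 := (h3.add h2).def (show (0 : ℝ) < 1 / (|C| + 1) by positivity)
  filter_upwards [h6, eventually_ge_atTop 1] with T hT hT1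
  have hl : 0 ≤ Real.log T := Real.log_nonneg hT1
  have hT0 : (0 : ℝ) ≤ T := by linarith
  rw [Real.norm_of_nonneg (by positivity), Real.norm_of_nonneg (Real.rpow_nonneg hT0 _)] at hT
  calc C * (1 + Real.log T) ≤ (|C| + 1) * (1 + Real.log T) :=
        mul_le_mul_of_nonneg_right (by linarith [le_abs_self C]) (by positivity)
    _ ≤ (|C| + 1) * (1 / (|C| + 1) * T ^ η) := mul_le_mul_of_nonneg_left hT (by positivity)
    _ = T ^ η := by field_simp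

/-- the sum of `|mf r| σ(r)` is `≤ T^(1/2-e+η)` -/
private lemma SSs {e η : ℝ} (he : e < 1 / 2) (he0 : 0 ≤ e) (hη : 0 < η) : ∀ᶠ T : ℝ in atTop,
    ∑ r ∈ Finset.Icc 1 ⌊T ^ (1 / 2 - e)⌋₊, |mf r| * ((ArithmeticFunction.sigma 1 r : ℕ) : ℝ) ≤ T ^ (1 / 2 - e + η) :=
  ss_small he he0 hη

/-- the tail of `∑ mf(r)²` -/
private lemma tail {κ2 e η : ℝ} (h2 : 0 < κ2) (he : 0 < e) (h : κ2 + e < 1 / 2) (hη : 0 < η) : ∀ᶠ T : ℝ in atTop,
    ∑ r ∈ Finset.Ioc ⌊T ^ κ2⌋₊ ⌊T ^ (1 / 2 - e)⌋₊, mf r ^ 2 ≤ T ^ (η - κ2) := by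
  obtain ⟨C, hC, hdiv⟩ := div_bound (show (0 : ℝ) < η / 4 by positivity)
  filter_upwards [lps (C := C ^ 2) (show (0 : ℝ) < η / 2 by positivity), eventually_ge_atTop 1] with T hT hT1
  have hT0 : (0 : ℝ) < T := by linarith
  have hl : 0 ≤ Real.log T := Real.log_nonneg hT1
  set R₁ := ⌊T ^ (1 / 2 - e)⌋₊ with hR₁
  have hR₁T : (R₁ : ℝ) ≤ T := by
    calc (R₁ : ℝ) ≤ T ^ (1 / 2 - e) := Nat.floor_le (by positivity)
      _ ≤ T ^ (1 : ℝ) := Real.rpow_le_rpow_of_exponent_le hT1 (by linarith)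
      _ = T := Real.rpow_one T
  have hR₁1 : 1 ≤ R₁ := by
    rw [hR₁, Nat.one_le_floor_iff]; exact Real.one_le_rpow hT1 (by linarith)
  have h3 : ∀ r ∈ Finset.Ioc ⌊T ^ κ2⌋₊ R₁, mf r ^ 2 ≤ (C ^ 2 * T ^ (η / 2) * T ^ (-κ2)) * (1 / (r : ℝ)) := by
    intro r hr
    rw [Finset.mem_Ioc] at hr
    have hr0 : 0 < r := by omega
    have hrR : (0 : ℝ) < r := by exact_mod_cast hr0
    have a1 : T ^ κ2 < r := (Nat.floor_lt (by positivity)).mp hr.1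
    have a2 : (r : ℝ) ≤ T := le_trans (by exact_mod_cast hr.2) hR₁T
    by_cases hs : Squarefree r
    · have a3 := tot_ge hs
      have a4 := hdiv r hr0.ne'
      have hφ : (0 : ℝ) < Nat.totient r := by exact_mod_cast Nat.totient_pos.mpr hr0
      have a5 : (r : ℝ) ^ (η / 4) ≤ T ^ (η / 4) := Real.rpow_le_rpow hrR.le a2 (by positivity)
      have a6 : |mf r| ≤ C * T ^ (η / 4) / r := by
        refine (mfa r).trans ?_
        rw [div_le_div_iff₀ hφ hrR]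
        calc 1 * (r : ℝ) ≤ (r.divisors.card : ℝ) * (Nat.totient r : ℝ) := by rw [one_mul]; exact a3
          _ ≤ C * T ^ (η / 4) * (Nat.totient r : ℝ) := by
              refine mul_le_mul_of_nonneg_right (a4.trans ?_) hφ.le
              exact mul_le_mul_of_nonneg_left a5 hC.le
      have a7 : mf r ^ 2 ≤ (C * T ^ (η / 4) / r) ^ 2 := by
        rw [← sq_abs]
        exact pow_le_pow_left₀ (abs_nonneg _) a6 2
      refine a7.trans ?_
      have a8 : (1 / (r : ℝ)) ≤ T ^ (-κ2) := by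
        rw [Real.rpow_neg hT0.le, ← one_div]
        exact one_div_le_one_div_of_le (by positivity) a1.le
      have a9 : (T ^ (η / 4)) ^ 2 = T ^ (η / 2) := by
        rw [← Real.rpow_natCast, ← Real.rpow_mul hT0.le]; norm_num; ring_nf
      calc (C * T ^ (η / 4) / r) ^ 2 = C ^ 2 * (T ^ (η / 4)) ^ 2 * (1 / (r : ℝ)) * (1 / (r : ℝ)) := by ring
        _ = C ^ 2 * T ^ (η / 2) * (1 / (r : ℝ)) * (1 / (r : ℝ)) := by rw [a9]
        _ ≤ C ^ 2 * T ^ (η / 2) * T ^ (-κ2) * (1 / (r : ℝ)) := by gcongr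
    · rw [mfz hs]; simp; positivity
  have hh : ∑ r ∈ Finset.Icc 1 R₁, (1 / (r : ℝ)) ≤ 1 + Real.log T := by
    have h := harmonic_le_one_add_log R₁
    rw [harmonic_eq_sum_Icc] at h
    push_cast at h
    have h5 : Real.log R₁ ≤ Real.log T := Real.log_le_log (by exact_mod_cast hR₁1) hR₁T
    have h6 : ∑ r ∈ Finset.Icc 1 R₁, (1 / (r : ℝ)) ≤ 1 + Real.log R₁ := by simpa [one_div] using h
    linarith
  calc ∑ r ∈ Finset.Ioc ⌊T ^ κ2⌋₊ R₁, mf r ^ 2 ≤ ∑ r ∈ Finset.Ioc ⌊T ^ κ2⌋₊ R₁, (C ^ 2 * T ^ (η / 2) * T ^ (-κ2)) * (1 / (r : ℝ)) := Finset.sum_le_sum h3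
    _ ≤ ∑ r ∈ Finset.Icc 1 R₁, (C ^ 2 * T ^ (η / 2) * T ^ (-κ2)) * (1 / (r : ℝ)) := by
        refine Finset.sum_le_sum_of_subset_of_nonneg (fun r hr => ?_) fun _ _ _ => by positivity
        rw [Finset.mem_Ioc] at hr
        exact Finset.mem_Icc.mpr ⟨by omega, hr.2⟩
    _ = (C ^ 2 * T ^ (η / 2) * T ^ (-κ2)) * ∑ r ∈ Finset.Icc 1 R₁, (1 / (r : ℝ)) := by rw [Finset.mul_sum]
    _ ≤ (C ^ 2 * T ^ (η / 2) * T ^ (-κ2)) * (1 + Real.log T) := mul_le_mul_of_nonneg_left hh (by positivity)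
    _ = (C ^ 2 * (1 + Real.log T)) * (T ^ (η / 2) * T ^ (-κ2)) := by ring
    _ ≤ T ^ (η / 2) * (T ^ (η / 2) * T ^ (-κ2)) := mul_le_mul_of_nonneg_right hT (by positivity)
    _ = _ := by rw [← Real.rpow_add hT0, ← Real.rpow_add hT0]; ring_nf

/-- block F0: `FS_b1b1` -/
theorem FS_b1b1 {κ2 e : ℝ} (h2 : 0 < κ2) (he : 0 < e) (h : κ2 + e < 1 / 2) : ∃ κ s : ℝ, 0 < κ ∧ 0 < s ∧
    FS (fun T => b1 κ2 e T) (fun T => b1 κ2 e T) κ s := by
  have hm : 0 < min (κ2 / 2) e := lt_min (by positivity) he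
  refine ⟨κ2 / 12, min (κ2 / 2) e / 2, by positivity, by positivity, ?_⟩
  have hbig : ∀ᶠ T : ℝ in atTop, 3 ≤ T ^ (min (κ2 / 2) e / 2) :=
    (tendsto_rpow_atTop (by positivity)).eventually_ge_atTop 3
  filter_upwards [SSs (e := e) (η := e / 2) (by linarith) he.le (by positivity),
    tail (η := κ2 / 12) h2 he h (by positivity), hbig, eventually_ge_atTop 1] with T hT1 hT2 hT3 hT
  intro k hk hkT N₁ N₂ hN1 hN2
  have hT0 : (0 : ℝ) < T := by linarith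
  rcases le_or_gt N₁ N₂ with hN | hN
  · have key := b1_corr (κ2 := κ2) (e := e) hT (by linarith) k hN
    set I := Finset.Ioc ⌊T ^ κ2⌋₊ ⌊T ^ (1 / 2 - e)⌋₊ with hI
    have a1 : |∑ r ∈ I, mf r ^ 2 * cr r k| ≤ T ^ (κ2 / 12 - κ2) * (k : ℝ) ^ 2 := by
      calc |∑ r ∈ I, mf r ^ 2 * cr r k| ≤ ∑ r ∈ I, mf r ^ 2 * (k : ℝ) ^ 2 := by
            refine (Finset.abs_sum_le_sum_abs _ _).trans (Finset.sum_le_sum fun r _ => ?_)
            rw [abs_mul, abs_of_nonneg (sq_nonneg (mf r))]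
            exact mul_le_mul_of_nonneg_left (cr_abs r hk) (sq_nonneg _)
        _ = (∑ r ∈ I, mf r ^ 2) * (k : ℝ) ^ 2 := by rw [Finset.sum_mul]
        _ ≤ _ := mul_le_mul_of_nonneg_right hT2 (sq_nonneg _)
    have a2 : (k : ℝ) ^ 2 ≤ T ^ (κ2 / 6) := by
      rw [← sq_abs]
      calc |(k : ℝ)| ^ 2 ≤ (T ^ (κ2 / 12)) ^ 2 := pow_le_pow_left₀ (abs_nonneg _) hkT 2
        _ = T ^ (κ2 / 6) := by rw [← Real.rpow_natCast, ← Real.rpow_mul hT0.le]; ring_nf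
    have a3 : (N₂ : ℝ) - N₁ ≤ T ^ (1 + κ2 / 12) := by
      have : (0 : ℝ) ≤ N₁ := by positivity
      linarith
    have a3' : (0 : ℝ) ≤ (N₂ : ℝ) - N₁ := by
      have : (N₁ : ℝ) ≤ N₂ := by exact_mod_cast hN
      linarith
    have a4 : |(∑ r ∈ I, mf r ^ 2 * cr r k) * ((N₂ : ℝ) - N₁)| ≤ T ^ (1 - min (κ2 / 2) e) := by
      rw [abs_mul, abs_of_nonneg a3']
      calc |∑ r ∈ I, mf r ^ 2 * cr r k| * ((N₂ : ℝ) - N₁) ≤ (T ^ (κ2 / 12 - κ2) * T ^ (κ2 / 6)) * T ^ (1 + κ2 / 12) := by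
            refine mul_le_mul (a1.trans (mul_le_mul_of_nonneg_left a2 (by positivity))) a3 a3' (by positivity)
        _ = T ^ (κ2 / 12 - κ2 + κ2 / 6 + (1 + κ2 / 12)) := by rw [← Real.rpow_add hT0, ← Real.rpow_add hT0]
        _ ≤ _ := Real.rpow_le_rpow_of_exponent_le hT (by
            have := min_le_left (κ2 / 2) e
            linarith)
    have a5 : 2 * (∑ r ∈ Finset.Icc 1 ⌊T ^ (1 / 2 - e)⌋₊, |mf r| * ((ArithmeticFunction.sigma 1 r : ℕ) : ℝ)) ^ 2 ≤ 2 * T ^ (1 - min (κ2 / 2) e) := by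
      have h0 : 0 ≤ ∑ r ∈ Finset.Icc 1 ⌊T ^ (1 / 2 - e)⌋₊, |mf r| * ((ArithmeticFunction.sigma 1 r : ℕ) : ℝ) := Finset.sum_nonneg fun _ _ => by positivity
      have := pow_le_pow_left₀ h0 hT1 2
      calc 2 * (∑ r ∈ Finset.Icc 1 ⌊T ^ (1 / 2 - e)⌋₊, |mf r| * ((ArithmeticFunction.sigma 1 r : ℕ) : ℝ)) ^ 2 ≤ 2 * (T ^ (1 / 2 - e + e / 2)) ^ 2 := by linarith
        _ = 2 * T ^ ((1 / 2 - e + e / 2) * 2) := by rw [← Real.rpow_natCast, ← Real.rpow_mul hT0.le]; norm_num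
        _ ≤ _ := by
            refine mul_le_mul_of_nonneg_left (Real.rpow_le_rpow_of_exponent_le hT ?_) (by norm_num)
            have := min_le_right (κ2 / 2) e
            linarith
    have a6 : |∑ n ∈ Finset.Ioc N₁ N₂, b1 κ2 e T n * b1 κ2 e T (n + k)| ≤ 3 * T ^ (1 - min (κ2 / 2) e) := by
      have b1 := abs_sub_abs_le_abs_sub (∑ n ∈ Finset.Ioc N₁ N₂, b1 κ2 e T n * b1 κ2 e T (n + k))
        ((∑ r ∈ I, mf r ^ 2 * cr r k) * ((N₂ : ℝ) - N₁))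
      linarith
    calc _ ≤ 3 * T ^ (1 - min (κ2 / 2) e) := a6
      _ ≤ T ^ (min (κ2 / 2) e / 2) * T ^ (1 - min (κ2 / 2) e) := mul_le_mul_of_nonneg_right hT3 (by positivity)
      _ = T ^ (1 - min (κ2 / 2) e / 2) := by rw [← Real.rpow_add hT0]; ring_nf
  · rw [Finset.Ioc_eq_empty (by omega)]
    simp
    positivity

private lemma cr_zero {r : ℕ} (hr : 0 < r) : cr r 0 = (Nat.totient r : ℝ) := by
  have h := (ArithmeticFunction.sum_eq_iff_sum_mul_moebius_eq (R := ℝ) (f := fun n => ((Nat.totient n : ℕ) : ℝ))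
    (g := fun n => (n : ℝ))).mp (fun n hn => by
      have := Nat.sum_totient n
      exact_mod_cast this) r hr
  rw [Nat.sum_divisorsAntidiagonal' (f := fun a b => ((ArithmeticFunction.moebius a : ℤ) : ℝ) * (b : ℝ))] at h
  rw [← h]
  unfold cr
  refine Finset.sum_congr rfl fun d _ => ?_
  simp only [dvd_zero, if_true]
  ring

private lemma A_eq {κ2 e T : ℝ} (hT : 1 ≤ T) (h : κ2 ≤ 1 / 2 - e) :
    ∑ r ∈ Finset.Ioc ⌊T ^ κ2⌋₊ ⌊T ^ (1 / 2 - e)⌋₊, mf r ^ 2 * cr r 0 = GG 1 ⌊T ^ (1 / 2 - e)⌋₊ - GG 1 ⌊T ^ κ2⌋₊ := by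
  have h1 : ⌊T ^ κ2⌋₊ ≤ ⌊T ^ (1 / 2 - e)⌋₊ := Nat.floor_le_floor (Real.rpow_le_rpow_of_exponent_le hT h)
  have hG : ∀ R : ℕ, GG 1 R = ∑ r ∈ Finset.Icc 1 R, mf r ^ 2 * cr r 0 := by
    intro R
    unfold GG
    rw [Finset.sum_filter]
    refine Finset.sum_congr rfl fun r hr => ?_
    have hr0 := (Finset.mem_Icc.mp hr).1
    by_cases hs : Squarefree r
    · rw [if_pos ⟨hs, Nat.coprime_one_right r⟩, cr_zero (by omega)]
      unfold mf
      have hφ : (0 : ℝ) < Nat.totient r := by exact_mod_cast Nat.totient_pos.mpr (by omega)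
      have hmu : ((ArithmeticFunction.moebius r : ℤ) : ℝ) ^ 2 = 1 := by
        have := ArithmeticFunction.moebius_sq_eq_one_of_squarefree hs
        exact_mod_cast this
      rw [div_pow, hmu]
      field_simp
    · rw [if_neg (fun h => hs h.1), mfz hs]; simp
  rw [hG, hG]
  have h2 : Finset.Icc 1 ⌊T ^ (1 / 2 - e)⌋₊ = Finset.Icc 1 ⌊T ^ κ2⌋₊ ∪ Finset.Ioc ⌊T ^ κ2⌋₊ ⌊T ^ (1 / 2 - e)⌋₊ := by
    ext r; simp only [Finset.mem_union, Finset.mem_Icc, Finset.mem_Ioc]; omega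
  have h3 : Disjoint (Finset.Icc 1 ⌊T ^ κ2⌋₊) (Finset.Ioc ⌊T ^ κ2⌋₊ ⌊T ^ (1 / 2 - e)⌋₊) := by
    rw [Finset.disjoint_left]
    intro r hr hr'
    have := (Finset.mem_Icc.mp hr).2
    have := (Finset.mem_Ioc.mp hr').1
    omega
  rw [h2, Finset.sum_union h3]
  ring

private lemma GG_triv {T : ℝ} (hT : 1 ≤ T) {x : ℝ} (hx : x ≤ 1 / 2) : 0 ≤ GG 1 ⌊T ^ x⌋₊ ∧ GG 1 ⌊T ^ x⌋₊ ≤ T ^ (1 / 2 : ℝ) := by
  constructor
  · exact Finset.sum_nonneg fun _ _ => by positivity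
  · unfold GG
    calc ∑ r ∈ (Finset.Icc 1 ⌊T ^ x⌋₊).filter (fun r => Squarefree r ∧ Nat.Coprime r 1), (1 : ℝ) / Nat.totient r
        ≤ ∑ r ∈ (Finset.Icc 1 ⌊T ^ x⌋₊).filter (fun r => Squarefree r ∧ Nat.Coprime r 1), (1 : ℝ) := by
          refine Finset.sum_le_sum fun r hr => ?_
          have hr0 := (Finset.mem_Icc.mp (Finset.mem_filter.mp hr).1).1
          have : (1 : ℝ) ≤ Nat.totient r := by exact_mod_cast Nat.totient_pos.mpr (by omega)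
          rw [div_le_one (by linarith)]; exact this
      _ ≤ ∑ r ∈ Finset.Icc 1 ⌊T ^ x⌋₊, (1 : ℝ) := Finset.sum_le_sum_of_subset_of_nonneg (Finset.filter_subset _ _) fun _ _ _ => zero_le_one
      _ = ((⌊T ^ x⌋₊ : ℕ) : ℝ) := by simp
      _ ≤ T ^ x := Nat.floor_le (by positivity)
      _ ≤ _ := Real.rpow_le_rpow_of_exponent_le hT hx

/-- block F0: `K0d` -/
theorem K0d {κ2 e ε : ℝ} (h2 : 0 < κ2) (he : 0 < e) (h : κ2 + e < 1 / 2) (hε : 0 < ε) {W : ℝ → ℝ} {R : ℝ} (hW : PF W R) (hR : 0 < R) :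
    ∀ᶠ T : ℝ in atTop, ∀ c : ℝ, Real.log T ≤ c → |Sm W R c (fun n => b1 κ2 e T n ^ 2) -
      (∫ y, W y ^ 2) * (GG 1 ⌊T ^ (1 / 2 - e)⌋₊ - GG 1 ⌊T ^ κ2⌋₊)| ≤ ε * Real.log T := by
  obtain ⟨C, hC, hS⟩ := Sm_of_sum hW hR
  have hlog : ∀ᶠ T : ℝ in atTop, max R 1 ≤ Real.log T := Real.tendsto_log_atTop.eventually_ge_atTop _
  have hs1 : ∀ᶠ T : ℝ in atTop, 4 * C / ε ≤ T ^ e := (tendsto_rpow_atTop he).eventually_ge_atTop _
  have hs2 : ∀ᶠ T : ℝ in atTop, 4 * C / ε ≤ T ^ (1 / 2 : ℝ) := (tendsto_rpow_atTop (by norm_num)).eventually_ge_atTop _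
  filter_upwards [SSs (e := e) (η := e / 2) (by linarith) he.le (by positivity), hlog, hs1, hs2, eventually_ge_atTop 1] with T hT1 hT2 hT3 hT4 hT
  intro c hc
  have hT0 : (0 : ℝ) < T := by linarith
  set A := GG 1 ⌊T ^ (1 / 2 - e)⌋₊ - GG 1 ⌊T ^ κ2⌋₊ with hA
  set S := ∑ r ∈ Finset.Icc 1 ⌊T ^ (1 / 2 - e)⌋₊, |mf r| * ((ArithmeticFunction.sigma 1 r : ℕ) : ℝ) with hSd
  have hS0 : 0 ≤ S := Finset.sum_nonneg fun _ _ => by positivity
  have hRc : R ≤ c := by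
    have := le_max_left R 1
    linarith
  have k1 := hS c (fun n => b1 κ2 e T n ^ 2) A (2 * S ^ 2) (by positivity) hRc (fun N => by
    have := b1_corr (κ2 := κ2) (e := e) hT (by linarith) 0 (Nat.zero_le N)
    rw [A_eq hT (by linarith), ← hA, ← hSd] at this
    have e1 : Finset.Ioc 0 N = Finset.Icc 1 N := rfl
    rw [e1] at this
    simp only [add_zero, Nat.cast_zero, sub_zero] at this
    have e2 : ∑ n ∈ Finset.Icc 1 N, b1 κ2 e T n * b1 κ2 e T n = ∑ n ∈ Finset.Icc 1 N, b1 κ2 e T n ^ 2 :=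
      Finset.sum_congr rfl fun n _ => by ring
    rw [e2] at this
    exact this)
  have hexp : Real.exp (-c) ≤ T⁻¹ := by
    rw [Real.exp_neg]
    apply inv_anti₀ hT0
    calc T = Real.exp (Real.log T) := (Real.exp_log hT0).symm
      _ ≤ Real.exp c := Real.exp_le_exp.mpr hc
  have hAb : |A| ≤ T ^ (1 / 2 : ℝ) := by
    have g1 := GG_triv hT (x := 1 / 2 - e) (by linarith)
    have g2 := GG_triv hT (x := κ2) (by linarith)
    rw [abs_le]; constructor <;> linarith [g1.1, g1.2, g2.1, g2.2]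
  have hSb : 2 * S ^ 2 ≤ 2 * T ^ (1 - e) := by
    have := pow_le_pow_left₀ hS0 hT1 2
    calc 2 * S ^ 2 ≤ 2 * (T ^ (1 / 2 - e + e / 2)) ^ 2 := by linarith
      _ = 2 * T ^ ((1 / 2 - e + e / 2) * 2) := by rw [← Real.rpow_natCast, ← Real.rpow_mul hT0.le]; norm_num
      _ = _ := by ring_nf
  have b1' : 2 * T ^ (1 - e) * T⁻¹ = 2 * T ^ (-e) := by
    rw [mul_assoc, ← Real.rpow_neg_one, ← Real.rpow_add hT0]; ring_nf
  have b2' : T ^ (1 / 2 : ℝ) * T⁻¹ = T ^ (-(1 / 2 : ℝ)) := by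
    rw [← Real.rpow_neg_one, ← Real.rpow_add hT0]; norm_num
  have b3 : C * T ^ (-e) ≤ ε / 4 := by
    rw [Real.rpow_neg hT0.le, ← div_eq_mul_inv, div_le_iff₀ (by positivity)]
    have := (div_le_iff₀ hε).mp hT3
    linarith
  have b4 : C * T ^ (-(1 / 2 : ℝ)) ≤ ε / 4 := by
    rw [Real.rpow_neg hT0.le, ← div_eq_mul_inv, div_le_iff₀ (by positivity)]
    have := (div_le_iff₀ hε).mp hT4
    linarith
  have hlT : 1 ≤ Real.log T := (le_max_right R 1).trans hT2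
  rw [mul_comm (∫ y, W y ^ 2) A]
  calc |Sm W R c (fun n => b1 κ2 e T n ^ 2) - A * ∫ y, W y ^ 2| ≤ C * (2 * S ^ 2 + |A|) * Real.exp (-c) := k1
    _ ≤ C * (2 * T ^ (1 - e) + T ^ (1 / 2 : ℝ)) * T⁻¹ := by gcongr
    _ = C * (2 * T ^ (1 - e) * T⁻¹ + T ^ (1 / 2 : ℝ) * T⁻¹) := by ring
    _ = 2 * (C * T ^ (-e)) + C * T ^ (-(1 / 2 : ℝ)) := by rw [b1', b2']; ring
    _ ≤ 2 * (ε / 4) + ε / 4 := by linarith
    _ ≤ ε * 1 := by linarith
    _ ≤ ε * Real.log T := mul_le_mul_of_nonneg_left hlT hε.le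

end Pool.Agent.AP
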