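import Pool.Agent.Helper56.AP.Defs2
import Pool.Agent.Helper69.FF.DivS

/-!
# Project A' (MP_8958e8), block F0, part a: correlations of Ramanujan sums (counting)
-/

open Finset
open Pool.Agent.Helper69.FF

set_option autoImplicit false

namespace Pool.Agent.AP

private lemma mob1 (e n : ℕ) (hn : 0 < n) :
    ∑ d ∈ n.divisors, (if e ∣ d then (ArithmeticFunction.moebius (n / d) : ℝ) else 0) = if n = e then 1 else 0 := by
  have h := (ArithmeticFunction.sum_eq_iff_sum_mul_moebius_eq (R := ℝ) (f := fun n => if n = e then 1 else 0)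
    (g := fun n => if e ∣ n then 1 else 0)).mp (fun n hn => by
      rw [Finset.sum_ite_eq']
      simp [Nat.mem_divisors, hn.ne']) n hn
  rw [← h, Nat.sum_divisorsAntidiagonal' (f := fun a b => ((ArithmeticFunction.moebius a : ℤ) : ℝ) * (if e ∣ b then 1 else 0))]
  refine Finset.sum_congr rfl fun d _ => ?_
  by_cases hd : e ∣ d <;> simp [hd]

private lemma cr_sum (g : ℕ) (hg : 0 < g) (k : ℤ) :
    ∑ e ∈ g.divisors, cr e k = if (g : ℤ) ∣ k then (g : ℝ) else 0 := by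
  refine (ArithmeticFunction.sum_eq_iff_sum_mul_moebius_eq (R := ℝ) (f := fun e => cr e k)
    (g := fun g : ℕ => if (g : ℤ) ∣ k then (g : ℝ) else 0)).mpr (fun n hn => ?_) g hg
  rw [Nat.sum_divisorsAntidiagonal' (f := fun a b => ((ArithmeticFunction.moebius a : ℤ) : ℝ) *
    (if (b : ℤ) ∣ k then (b : ℝ) else 0))]
  unfold cr
  refine Finset.sum_congr rfl fun d _ => ?_
  by_cases hd : (d : ℤ) ∣ k
  · simp only [hd, if_true]; ring
  · simp only [hd, if_false, mul_zero]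

/-- main term of one Ramanujan sum along `q m + k` -/
private lemma mainT (r q : ℕ) (hr : 0 < r) (hq : 0 < q) (k : ℤ) :
    ∑ δ ∈ r.divisors, (ArithmeticFunction.moebius (r / δ) : ℝ) *
      (if ((Nat.gcd δ q : ℕ) : ℤ) ∣ k then ((Nat.gcd δ q : ℕ) : ℝ) else 0) = if r ∣ q then cr r k else 0 := by
  have h1 : ∀ δ ∈ r.divisors, (ArithmeticFunction.moebius (r / δ) : ℝ) *
      (if ((Nat.gcd δ q : ℕ) : ℤ) ∣ k then ((Nat.gcd δ q : ℕ) : ℝ) else 0) =
      ∑ e ∈ q.divisors, cr e k * (if e ∣ δ then (ArithmeticFunction.moebius (r / δ) : ℝ) else 0) := by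
    intro δ hδ
    have hδ0 : 0 < δ := Nat.pos_of_mem_divisors hδ
    rw [← cr_sum (Nat.gcd δ q) (Nat.gcd_pos_of_pos_left _ hδ0) k, Finset.mul_sum]
    have h2 : (Nat.gcd δ q).divisors = q.divisors.filter (fun e => e ∣ δ) := by
      ext e
      simp only [Nat.mem_divisors, Finset.mem_filter]
      constructor
      · rintro ⟨h, _⟩
        exact ⟨⟨h.trans (Nat.gcd_dvd_right _ _), hq.ne'⟩, h.trans (Nat.gcd_dvd_left _ _)⟩
      · rintro ⟨⟨h, _⟩, h'⟩
        exact ⟨Nat.dvd_gcd h' h, (Nat.gcd_pos_of_pos_left _ hδ0).ne'⟩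
    rw [h2, Finset.sum_filter]
    refine Finset.sum_congr rfl fun e _ => ?_
    by_cases he : e ∣ δ
    · simp only [he, if_true]; ring
    · simp only [he, if_false, mul_zero]
  rw [Finset.sum_congr rfl h1, Finset.sum_comm]
  have h3 : ∀ e ∈ q.divisors, ∑ δ ∈ r.divisors, cr e k * (if e ∣ δ then (ArithmeticFunction.moebius (r / δ) : ℝ) else 0) =
      if r = e then cr r k else 0 := by
    intro e _
    rw [← Finset.mul_sum, mob1 e r hr]
    by_cases h : r = e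
    · simp [h]
    · simp [h]
  rw [Finset.sum_congr rfl h3, Finset.sum_ite_eq]
  simp [Nat.mem_divisors, hq.ne']

private lemma mainS (r r' : ℕ) (hr : 0 < r) (hr' : 0 < r') (k : ℤ) :
    ∑ d ∈ r.divisors, ∑ d' ∈ r'.divisors, (ArithmeticFunction.moebius (r / d) : ℝ) * (ArithmeticFunction.moebius (r' / d') : ℝ) *
      (if ((Nat.gcd d d' : ℕ) : ℤ) ∣ k then ((Nat.gcd d d' : ℕ) : ℝ) else 0) = if r = r' then cr r k else 0 := by
  rw [Finset.sum_comm]
  have h1 : ∀ d' ∈ r'.divisors, ∑ d ∈ r.divisors, (ArithmeticFunction.moebius (r / d) : ℝ) * (ArithmeticFunction.moebius (r' / d') : ℝ) *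
      (if ((Nat.gcd d d' : ℕ) : ℤ) ∣ k then ((Nat.gcd d d' : ℕ) : ℝ) else 0) =
      cr r k * (if r ∣ d' then (ArithmeticFunction.moebius (r' / d') : ℝ) else 0) := by
    intro d' hd'
    have := mainT r d' hr (Nat.pos_of_mem_divisors hd') k
    calc _ = (ArithmeticFunction.moebius (r' / d') : ℝ) * ∑ d ∈ r.divisors, (ArithmeticFunction.moebius (r / d) : ℝ) *
          (if ((Nat.gcd d d' : ℕ) : ℤ) ∣ k then ((Nat.gcd d d' : ℕ) : ℝ) else 0) := by
          rw [Finset.mul_sum]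
          refine Finset.sum_congr rfl fun d _ => ?_
          ring
      _ = _ := by
          rw [this]
          by_cases h : r ∣ d'
          · simp only [h, if_true]; ring
          · simp only [h, if_false, mul_zero]
  rw [Finset.sum_congr rfl h1, ← Finset.mul_sum, mob1 r r' hr']
  by_cases h : r = r'
  · simp [h]
  · have h' : ¬ r' = r := fun h2 => h h2.symm
    simp [h, h']

/-- a residue class in an interval -/
private lemma cntN {L : ℕ} (hL : 0 < L) (v N₁ N₂ : ℕ) (h : N₁ ≤ N₂) :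
    |(((Finset.Ioc N₁ N₂).filter (fun n => n ≡ v [MOD L])).card : ℝ) - ((N₂ : ℝ) - N₁) / L| ≤ 1 := by
  have h1 := Nat.Ioc_filter_modEq_card N₁ N₂ hL v
  set x : ℚ := ((N₂ : ℚ) - v) / L with hx
  set y : ℚ := ((N₁ : ℚ) - v) / L with hy
  have hL' : (0 : ℚ) < L := by exact_mod_cast hL
  have hyx : y ≤ x := by
    rw [hx, hy]
    apply div_le_div_of_nonneg_right _ hL'.le
    have : (N₁ : ℚ) ≤ N₂ := by exact_mod_cast h
    linarith
  have h2 : ⌊y⌋ ≤ ⌊x⌋ := Int.floor_le_floor hyx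
  have h3 : (((Finset.Ioc N₁ N₂).filter (fun n => n ≡ v [MOD L])).card : ℤ) = ⌊x⌋ - ⌊y⌋ := by
    rw [h1, max_eq_left (by omega)]
  have h4 : |((((Finset.Ioc N₁ N₂).filter (fun n => n ≡ v [MOD L])).card : ℤ) : ℚ) - (x - y)| ≤ 1 := by
    rw [h3]
    push_cast
    have a1 := Int.floor_le x
    have a2 := Int.lt_floor_add_one x
    have a3 := Int.floor_le y
    have a4 := Int.lt_floor_add_one y
    rw [abs_le]
    constructor <;> linarith
  have h5 : x - y = ((N₂ : ℚ) - N₁) / L := by rw [hx, hy]; ring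
  rw [h5] at h4
  have h6 := (Rat.cast_le (K := ℝ)).mpr h4
  push_cast at h6
  exact h6

private lemma cntZ {L : ℕ} (hL : 0 < L) (n₀ : ℤ) (P : ℕ → Prop) [DecidablePred P] (hP : ∀ n : ℕ, P n ↔ (L : ℤ) ∣ (n : ℤ) - n₀)
    (N₁ N₂ : ℕ) (h : N₁ ≤ N₂) :
    |(((Finset.Ioc N₁ N₂).filter P).card : ℝ) - ((N₂ : ℝ) - N₁) / L| ≤ 1 := by
  have hL' : (0 : ℤ) < L := by exact_mod_cast hL
  set v : ℕ := (n₀ % (L : ℤ)).toNat with hv
  have hv2 : (v : ℤ) = n₀ % (L : ℤ) := Int.toNat_of_nonneg (Int.emod_nonneg _ hL'.ne')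
  have h1 : (Finset.Ioc N₁ N₂).filter P = (Finset.Ioc N₁ N₂).filter (fun n => n ≡ v [MOD L]) := by
    refine Finset.filter_congr fun n _ => ?_
    rw [hP n, Nat.modEq_iff_dvd, hv2]
    have h3 : (L : ℤ) ∣ n₀ - n₀ % (L : ℤ) := Int.dvd_self_sub_emod
    constructor
    · intro h4
      have : n₀ % (L : ℤ) - n = -((n : ℤ) - n₀) - (n₀ - n₀ % (L : ℤ)) := by ring
      rw [this]
      exact dvd_sub (dvd_neg.mpr h4) h3
    · intro h4
      have : (n : ℤ) - n₀ = -(n₀ % (L : ℤ) - n) - (n₀ - n₀ % (L : ℤ)) := by ring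
      rw [this]
      exact dvd_sub (dvd_neg.mpr h4) h3
  rw [h1]
  exact cntN hL v N₁ N₂ h

private lemma cntT {δ q : ℕ} (hδ : 0 < δ) (k : ℤ) (N₁ N₂ : ℕ) (h : N₁ ≤ N₂) :
    |(((Finset.Ioc N₁ N₂).filter (fun m : ℕ => (δ : ℤ) ∣ (q : ℤ) * m + k)).card : ℝ) -
      (if ((Nat.gcd δ q : ℕ) : ℤ) ∣ k then ((N₂ : ℝ) - N₁) * ((Nat.gcd δ q : ℕ) : ℝ) / δ else 0)| ≤ 1 := by
  set g : ℕ := Nat.gcd δ q with hg
  have hg0 : 0 < g := Nat.gcd_pos_of_pos_left _ hδ
  by_cases hk : (g : ℤ) ∣ k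
  · rw [if_pos hk]
    obtain ⟨t, ht⟩ := hk
    have hb : (g : ℤ) = δ * Nat.gcdA δ q + q * Nat.gcdB δ q := Nat.gcd_eq_gcd_ab δ q
    obtain ⟨δ', hδ'⟩ : g ∣ δ := Nat.gcd_dvd_left _ _
    obtain ⟨q', hq'⟩ : g ∣ q := Nat.gcd_dvd_right _ _
    have hδ'0 : 0 < δ' := by
      rcases Nat.eq_zero_or_pos δ' with h0 | h0
      · rw [h0, mul_zero] at hδ'; omega
      · exact h0
    have hcop : IsCoprime (δ' : ℤ) (q' : ℤ) := by
      refine ⟨Nat.gcdA δ q, Nat.gcdB δ q, ?_⟩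
      have hg' : (g : ℤ) ≠ 0 := by exact_mod_cast hg0.ne'
      have : (g : ℤ) * (Nat.gcdA δ q * δ' + Nat.gcdB δ q * q') = (g : ℤ) * 1 := by
        have e1 : (δ : ℤ) = g * δ' := by exact_mod_cast hδ'
        have e2 : (q : ℤ) = g * q' := by exact_mod_cast hq'
        calc (g : ℤ) * (Nat.gcdA δ q * δ' + Nat.gcdB δ q * q') = (g * δ') * Nat.gcdA δ q + (g * q') * Nat.gcdB δ q := by ring
          _ = (δ : ℤ) * Nat.gcdA δ q + (q : ℤ) * Nat.gcdB δ q := by rw [← e1, ← e2]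
          _ = (g : ℤ) * 1 := by rw [← hb, mul_one]
      exact mul_left_cancel₀ hg' this
    have key := cntZ hδ'0 (-(Nat.gcdB δ q * t)) (fun m : ℕ => (δ : ℤ) ∣ (q : ℤ) * m + k) (fun m => by
      have e1 : (δ : ℤ) = g * δ' := by exact_mod_cast hδ'
      have e2 : (q : ℤ) = g * q' := by exact_mod_cast hq'
      have hg' : (g : ℤ) ≠ 0 := by exact_mod_cast hg0.ne'
      have e3 : (q : ℤ) * m + k = g * (q' * m + t) := by rw [ht, e2]; ring
      rw [e3, e1, mul_dvd_mul_iff_left hg']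
      have e4 : (q' : ℤ) * m + t = q' * ((m : ℤ) - -(Nat.gcdB δ q * t)) + δ' * (Nat.gcdA δ q * t) := by
        have : (Nat.gcdA δ q : ℤ) * δ' + Nat.gcdB δ q * q' = 1 := by
          have e5 : (g : ℤ) * (Nat.gcdA δ q * δ' + Nat.gcdB δ q * q') = (g : ℤ) * 1 := by
            calc (g : ℤ) * (Nat.gcdA δ q * δ' + Nat.gcdB δ q * q') = (g * δ') * Nat.gcdA δ q + (g * q') * Nat.gcdB δ q := by ring
              _ = (δ : ℤ) * Nat.gcdA δ q + (q : ℤ) * Nat.gcdB δ q := by rw [← e1, ← e2]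
              _ = (g : ℤ) * 1 := by rw [← hb, mul_one]
          exact mul_left_cancel₀ hg' e5
        calc (q' : ℤ) * m + t = q' * m + t * 1 := by ring
          _ = q' * m + t * (Nat.gcdA δ q * δ' + Nat.gcdB δ q * q') := by rw [this]
          _ = _ := by ring
      rw [e4]
      constructor
      · intro h5
        have h6 : (δ' : ℤ) ∣ q' * ((m : ℤ) - -(Nat.gcdB δ q * t)) := by
          have := dvd_sub h5 (Dvd.intro (Nat.gcdA δ q * t) rfl : (δ' : ℤ) ∣ δ' * (Nat.gcdA δ q * t))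
          simpa using this
        exact hcop.dvd_of_dvd_mul_left h6
      · intro h5
        exact dvd_add (Dvd.dvd.mul_left h5 _) (Dvd.intro _ rfl)) N₁ N₂ h
    have e6 : ((N₂ : ℝ) - N₁) * (g : ℝ) / δ = ((N₂ : ℝ) - N₁) / δ' := by
      have : (δ : ℝ) = g * δ' := by exact_mod_cast hδ'
      rw [this]
      have h7 : (g : ℝ) ≠ 0 := by exact_mod_cast hg0.ne'
      have h8 : (δ' : ℝ) ≠ 0 := by exact_mod_cast hδ'0.ne'
      field_simp
    rw [e6]
    exact key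
  · rw [if_neg hk]
    have : (Finset.Ioc N₁ N₂).filter (fun m : ℕ => (δ : ℤ) ∣ (q : ℤ) * m + k) = ∅ := by
      refine Finset.filter_eq_empty_iff.mpr fun m _ hm => hk ?_
      have h1 : (g : ℤ) ∣ (q : ℤ) * m + k := (Int.natCast_dvd_natCast.mpr (Nat.gcd_dvd_left δ q)).trans hm
      have h2 : (g : ℤ) ∣ (q : ℤ) * m := (Int.natCast_dvd_natCast.mpr (Nat.gcd_dvd_right δ q)).mul_right _
      have := dvd_sub h1 h2
      simpa using this
    rw [this]
    simp

private lemma cntB {d d' : ℕ} (hd : 0 < d) (hd' : 0 < d') (k : ℤ) (N₁ N₂ : ℕ) (h : N₁ ≤ N₂) :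
    |(((Finset.Ioc N₁ N₂).filter (fun n : ℕ => (d : ℤ) ∣ n ∧ (d' : ℤ) ∣ n + k)).card : ℝ) -
      (if ((Nat.gcd d d' : ℕ) : ℤ) ∣ k then ((N₂ : ℝ) - N₁) * ((Nat.gcd d d' : ℕ) : ℝ) / (d * d') else 0)| ≤ 1 := by
  set g : ℕ := Nat.gcd d d' with hg
  have hg0 : 0 < g := Nat.gcd_pos_of_pos_left _ hd
  by_cases hk : (g : ℤ) ∣ k
  · rw [if_pos hk]
    obtain ⟨t, ht⟩ := hk
    have hb : (g : ℤ) = d * Nat.gcdA d d' + d' * Nat.gcdB d d' := Nat.gcd_eq_gcd_ab d d'
    have hL : 0 < Nat.lcm d d' := Nat.lcm_pos hd hd'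
    -- n₀ = - d A t
    have a1 : (d : ℤ) ∣ -(d * (Nat.gcdA d d' * t)) := dvd_neg.mpr (Dvd.intro _ rfl)
    have a2 : (d' : ℤ) ∣ -(d * (Nat.gcdA d d' * t)) + k := by
      have : -((d : ℤ) * (Nat.gcdA d d' * t)) + k = d' * (Nat.gcdB d d' * t) := by
        rw [ht, hb]; ring
      rw [this]
      exact Dvd.intro _ rfl
    have key := cntZ hL (-(d * (Nat.gcdA d d' * t))) (fun n : ℕ => (d : ℤ) ∣ n ∧ (d' : ℤ) ∣ n + k) (fun n => by
      have e1 : ((Nat.lcm d d' : ℕ) : ℤ) ∣ (n : ℤ) - -(d * (Nat.gcdA d d' * t)) ↔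
          (d : ℤ) ∣ (n : ℤ) - -(d * (Nat.gcdA d d' * t)) ∧ (d' : ℤ) ∣ (n : ℤ) - -(d * (Nat.gcdA d d' * t)) := by
        constructor
        · intro h5
          exact ⟨(Int.natCast_dvd_natCast.mpr (Nat.dvd_lcm_left d d')).trans h5,
            (Int.natCast_dvd_natCast.mpr (Nat.dvd_lcm_right d d')).trans h5⟩
        · rintro ⟨h5, h6⟩
          have h7 := Int.coe_lcm_dvd h5 h6
          simpa [Int.lcm] using h7
      rw [e1]
      constructor
      · rintro ⟨h5, h6⟩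
        refine ⟨dvd_sub h5 a1, ?_⟩
        have : (n : ℤ) - -(d * (Nat.gcdA d d' * t)) = (n + k) - (-(d * (Nat.gcdA d d' * t)) + k) := by ring
        rw [this]
        exact dvd_sub h6 a2
      · rintro ⟨h5, h6⟩
        refine ⟨?_, ?_⟩
        · have := dvd_add h5 a1
          simpa using this
        · have := dvd_add h6 a2
          have e : (n : ℤ) - -(d * (Nat.gcdA d d' * t)) + (-(d * (Nat.gcdA d d' * t)) + k) = n + k := by ring
          rw [e] at this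
          exact this) N₁ N₂ h
    have e6 : ((N₂ : ℝ) - N₁) * (g : ℝ) / (d * d') = ((N₂ : ℝ) - N₁) / (Nat.lcm d d' : ℕ) := by
      have : (g : ℝ) * (Nat.lcm d d' : ℕ) = d * d' := by exact_mod_cast Nat.gcd_mul_lcm d d'
      rw [← this]
      have h7 : (g : ℝ) ≠ 0 := by exact_mod_cast hg0.ne'
      have h8 : ((Nat.lcm d d' : ℕ) : ℝ) ≠ 0 := by exact_mod_cast hL.ne'
      field_simp
    rw [e6]
    exact key
  · rw [if_neg hk]
    have : (Finset.Ioc N₁ N₂).filter (fun n : ℕ => (d : ℤ) ∣ n ∧ (d' : ℤ) ∣ n + k) = ∅ := by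
      refine Finset.filter_eq_empty_iff.mpr fun n _ hn => hk ?_
      have h1 : (g : ℤ) ∣ (n : ℤ) := (Int.natCast_dvd_natCast.mpr (Nat.gcd_dvd_left d d')).trans hn.1
      have h2 : (g : ℤ) ∣ (n : ℤ) + k := (Int.natCast_dvd_natCast.mpr (Nat.gcd_dvd_right d d')).trans hn.2
      have := dvd_sub h2 h1
      simpa using this
    rw [this]
    simp

/-- block F0: `corr` -/
theorem corr {r r' : ℕ} (hr : Squarefree r) (hr' : Squarefree r') (k : ℤ) {N₁ N₂ : ℕ} (h : N₁ ≤ N₂) :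
    |∑ n ∈ Finset.Ioc N₁ N₂, cr r n * cr r' (n + k) - (if r = r' then cr r k else 0) * ((N₂ : ℝ) - N₁)| ≤
      2 * ((ArithmeticFunction.sigma 1 r : ℕ) : ℝ) * ((ArithmeticFunction.sigma 1 r' : ℕ) : ℝ) := by
  have hr0 : 0 < r := Nat.pos_of_ne_zero hr.ne_zero
  have hr0' : 0 < r' := Nat.pos_of_ne_zero hr'.ne_zero
  have h1 : ∑ n ∈ Finset.Ioc N₁ N₂, cr r n * cr r' (n + k) =
      ∑ d ∈ r.divisors, ∑ d' ∈ r'.divisors, ((d : ℝ) * (ArithmeticFunction.moebius (r / d) : ℝ)) * ((d' : ℝ) * (ArithmeticFunction.moebius (r' / d') : ℝ)) *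
        (((Finset.Ioc N₁ N₂).filter (fun n : ℕ => (d : ℤ) ∣ n ∧ (d' : ℤ) ∣ n + k)).card : ℝ) := by
    have e1 : ∀ n ∈ Finset.Ioc N₁ N₂, cr r n * cr r' (n + k) = ∑ d ∈ r.divisors, ∑ d' ∈ r'.divisors,
        ((d : ℝ) * (ArithmeticFunction.moebius (r / d) : ℝ)) * ((d' : ℝ) * (ArithmeticFunction.moebius (r' / d') : ℝ)) *
        (if (d : ℤ) ∣ n ∧ (d' : ℤ) ∣ n + k then 1 else 0) := by
      intro n _
      unfold cr
      rw [Finset.sum_mul_sum]
      refine Finset.sum_congr rfl fun d _ => Finset.sum_congr rfl fun d' _ => ?_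
      by_cases h1 : (d : ℤ) ∣ n
      · by_cases h2 : (d' : ℤ) ∣ n + k
        · simp [h1, h2]
        · simp [h1, h2]
      · simp [h1]
    rw [Finset.sum_congr rfl e1, Finset.sum_comm]
    refine Finset.sum_congr rfl fun d _ => ?_
    rw [Finset.sum_comm]
    refine Finset.sum_congr rfl fun d' _ => ?_
    rw [← Finset.mul_sum, Finset.card_filter]
    push_cast
    rfl
  have h2 : (if r = r' then cr r k else 0) * ((N₂ : ℝ) - N₁) =
      ∑ d ∈ r.divisors, ∑ d' ∈ r'.divisors, ((d : ℝ) * (ArithmeticFunction.moebius (r / d) : ℝ)) * ((d' : ℝ) * (ArithmeticFunction.moebius (r' / d') : ℝ)) *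
        (if ((Nat.gcd d d' : ℕ) : ℤ) ∣ k then ((N₂ : ℝ) - N₁) * ((Nat.gcd d d' : ℕ) : ℝ) / (d * d') else 0) := by
    rw [← mainS r r' hr0 hr0' k, Finset.sum_mul]
    refine Finset.sum_congr rfl fun d hd => ?_
    rw [Finset.sum_mul]
    refine Finset.sum_congr rfl fun d' hd' => ?_
    have a1 : (d : ℝ) ≠ 0 := by exact_mod_cast (Nat.pos_of_mem_divisors hd).ne'
    have a2 : (d' : ℝ) ≠ 0 := by exact_mod_cast (Nat.pos_of_mem_divisors hd').ne'
    split_ifs
    · field_simp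
    · ring
  rw [h1, h2, ← Finset.sum_sub_distrib]
  have hsig : ∀ m : ℕ, ((ArithmeticFunction.sigma 1 m : ℕ) : ℝ) = ∑ d ∈ m.divisors, (d : ℝ) := by
    intro m
    rw [ArithmeticFunction.sigma_one_apply]
    push_cast
    rfl
  have hmu : ∀ m : ℕ, |(ArithmeticFunction.moebius m : ℝ)| ≤ 1 := by
    intro m
    have := ArithmeticFunction.abs_moebius_le_one (n := m)
    exact_mod_cast this
  calc |∑ d ∈ r.divisors, (∑ d' ∈ r'.divisors, ((d : ℝ) * (ArithmeticFunction.moebius (r / d) : ℝ)) * ((d' : ℝ) * (ArithmeticFunction.moebius (r' / d') : ℝ)) *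
          (((Finset.Ioc N₁ N₂).filter (fun n : ℕ => (d : ℤ) ∣ n ∧ (d' : ℤ) ∣ n + k)).card : ℝ) -
        ∑ d' ∈ r'.divisors, ((d : ℝ) * (ArithmeticFunction.moebius (r / d) : ℝ)) * ((d' : ℝ) * (ArithmeticFunction.moebius (r' / d') : ℝ)) *
        (if ((Nat.gcd d d' : ℕ) : ℤ) ∣ k then ((N₂ : ℝ) - N₁) * ((Nat.gcd d d' : ℕ) : ℝ) / (d * d') else 0))|
      ≤ ∑ d ∈ r.divisors, ∑ d' ∈ r'.divisors, (d : ℝ) * (d' : ℝ) := by
        refine (Finset.abs_sum_le_sum_abs _ _).trans (Finset.sum_le_sum fun d hd => ?_)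
        rw [← Finset.sum_sub_distrib]
        refine (Finset.abs_sum_le_sum_abs _ _).trans (Finset.sum_le_sum fun d' hd' => ?_)
        rw [← mul_sub, abs_mul]
        have b1 := cntB (Nat.pos_of_mem_divisors hd) (Nat.pos_of_mem_divisors hd') k N₁ N₂ h
        have b2 : |((d : ℝ) * (ArithmeticFunction.moebius (r / d) : ℝ)) * ((d' : ℝ) * (ArithmeticFunction.moebius (r' / d') : ℝ))| ≤ (d : ℝ) * d' := by
          rw [abs_mul, abs_mul, abs_mul, Nat.abs_cast, Nat.abs_cast]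
          have c1 := hmu (r / d)
          have c2 := hmu (r' / d')
          have c3 : (0 : ℝ) ≤ d := by positivity
          have c4 : (0 : ℝ) ≤ d' := by positivity
          calc (d : ℝ) * |(ArithmeticFunction.moebius (r / d) : ℝ)| * ((d' : ℝ) * |(ArithmeticFunction.moebius (r' / d') : ℝ)|)
              ≤ (d : ℝ) * 1 * ((d' : ℝ) * 1) := by gcongr
            _ = _ := by ring
        calc _ ≤ ((d : ℝ) * d') * 1 := by
              refine mul_le_mul b2 b1 (abs_nonneg _) (by positivity)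
          _ = _ := by ring
    _ = ((ArithmeticFunction.sigma 1 r : ℕ) : ℝ) * ((ArithmeticFunction.sigma 1 r' : ℕ) : ℝ) := by
        rw [hsig, hsig, Finset.sum_mul_sum]
    _ ≤ _ := by
        have a1 : (0 : ℝ) ≤ ((ArithmeticFunction.sigma 1 r : ℕ) : ℝ) := by positivity
        have a2 : (0 : ℝ) ≤ ((ArithmeticFunction.sigma 1 r' : ℕ) : ℝ) := by positivity
        nlinarith [mul_nonneg a1 a2]

/-- one Ramanujan sum along a progression -/
theorem cr_prog {r q : ℕ} (hr0 : 0 < r) (hq : 0 < q) (k : ℤ) {N₁ N₂ : ℕ} (h : N₁ ≤ N₂) :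
    |∑ m ∈ Finset.Ioc N₁ N₂, cr r (q * m + k) - (if r ∣ q then cr r k else 0) * ((N₂ : ℝ) - N₁)| ≤
      ((ArithmeticFunction.sigma 1 r : ℕ) : ℝ) := by
  have h1 : ∑ m ∈ Finset.Ioc N₁ N₂, cr r (q * m + k) =
      ∑ d ∈ r.divisors, ((d : ℝ) * (ArithmeticFunction.moebius (r / d) : ℝ)) *
        (((Finset.Ioc N₁ N₂).filter (fun m : ℕ => (d : ℤ) ∣ (q : ℤ) * m + k)).card : ℝ) := by
    have e1 : ∀ m ∈ Finset.Ioc N₁ N₂, cr r (q * m + k) = ∑ d ∈ r.divisors,
        ((d : ℝ) * (ArithmeticFunction.moebius (r / d) : ℝ)) * (if (d : ℤ) ∣ (q : ℤ) * m + k then 1 else 0) := by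
      intro m _
      unfold cr
      refine Finset.sum_congr rfl fun d _ => ?_
      by_cases h1 : (d : ℤ) ∣ (q : ℤ) * m + k
      · simp [h1]
      · simp [h1]
    rw [Finset.sum_congr rfl e1, Finset.sum_comm]
    refine Finset.sum_congr rfl fun d _ => ?_
    rw [← Finset.mul_sum, Finset.card_filter]
    push_cast
    rfl
  have h2 : (if r ∣ q then cr r k else 0) * ((N₂ : ℝ) - N₁) =
      ∑ d ∈ r.divisors, ((d : ℝ) * (ArithmeticFunction.moebius (r / d) : ℝ)) *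
        (if ((Nat.gcd d q : ℕ) : ℤ) ∣ k then ((N₂ : ℝ) - N₁) * ((Nat.gcd d q : ℕ) : ℝ) / d else 0) := by
    rw [← mainT r q hr0 hq k, Finset.sum_mul]
    refine Finset.sum_congr rfl fun d hd => ?_
    have a1 : (d : ℝ) ≠ 0 := by exact_mod_cast (Nat.pos_of_mem_divisors hd).ne'
    split_ifs
    · field_simp
    · ring
  rw [h1, h2, ← Finset.sum_sub_distrib]
  have hmu : ∀ m : ℕ, |(ArithmeticFunction.moebius m : ℝ)| ≤ 1 := by
    intro m
    have := ArithmeticFunction.abs_moebius_le_one (n := m)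
    exact_mod_cast this
  rw [ArithmeticFunction.sigma_one_apply]
  push_cast
  refine (Finset.abs_sum_le_sum_abs _ _).trans (Finset.sum_le_sum fun d hd => ?_)
  rw [← mul_sub, abs_mul, abs_mul, Nat.abs_cast]
  have b1 := cntT (q := q) (Nat.pos_of_mem_divisors hd) k N₁ N₂ h
  calc (d : ℝ) * |(ArithmeticFunction.moebius (r / d) : ℝ)| * _ ≤ (d : ℝ) * 1 * 1 := by
        refine mul_le_mul (mul_le_mul_of_nonneg_left (hmu _) (by positivity)) b1 (abs_nonneg _) (by positivity)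
    _ = _ := by ring

end Pool.Agent.AP
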