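import Pool.Agent.Helper96.AP.F0a

/-!
# Project A' (MP_8958e8), block F0, part b: `sig_phi`, `TI1`, `FS_b1b1`
-/

open Finset Filter Topology
open Pool.Agent.Helper69.FF

set_option autoImplicit false

namespace Pool.Agent.AP

private lemma harm (R : ℕ) : ∑ d ∈ Finset.Icc 1 R, (1 / (d : ℝ)) ≤ 1 + Real.log R := by
  have h := harmonic_le_one_add_log R
  rw [harmonic_eq_sum_Icc] at h
  push_cast at h
  simpa [one_div] using h

private lemma sig_le {r R : ℕ} (hr : r ∈ Finset.Icc 1 R) :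
    ((ArithmeticFunction.sigma 1 r : ℕ) : ℝ) ≤ r * (1 + Real.log R) := by
  obtain ⟨h1, h2⟩ := Finset.mem_Icc.mp hr
  have h3 : ((ArithmeticFunction.sigma 1 r : ℕ) : ℝ) = ∑ d ∈ r.divisors, ((r : ℝ) / d) := by
    rw [ArithmeticFunction.sigma_one_apply, ← Nat.sum_div_divisors r (fun d => d)]
    push_cast
    refine Finset.sum_congr rfl fun d hd => ?_
    rw [Nat.cast_div (Nat.dvd_of_mem_divisors hd) (by exact_mod_cast (Nat.pos_of_mem_divisors hd).ne')]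
  rw [h3]
  calc ∑ d ∈ r.divisors, ((r : ℝ) / d) = r * ∑ d ∈ r.divisors, (1 / (d : ℝ)) := by
        rw [Finset.mul_sum]
        refine Finset.sum_congr rfl fun d _ => by ring
    _ ≤ r * ∑ d ∈ Finset.Icc 1 R, (1 / (d : ℝ)) := by
        refine mul_le_mul_of_nonneg_left (Finset.sum_le_sum_of_subset_of_nonneg ?_ fun _ _ _ => by positivity) (by positivity)
        intro d hd
        exact Finset.mem_Icc.mpr ⟨Nat.pos_of_mem_divisors hd, (Nat.divisor_le hd).trans h2⟩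
    _ ≤ _ := mul_le_mul_of_nonneg_left (harm R) (by positivity)

private lemma sum_div (R : ℕ) : ∑ r ∈ Finset.Icc 1 R, ((r.divisors.card : ℕ) : ℝ) ≤ R * (1 + Real.log R) := by
  have h1 : ∀ r ∈ Finset.Icc 1 R, ((r.divisors.card : ℕ) : ℝ) = ∑ d ∈ Finset.Icc 1 R, if d ∣ r then (1 : ℝ) else 0 := by
    intro r hr
    obtain ⟨h1, h2⟩ := Finset.mem_Icc.mp hr
    have : r.divisors = (Finset.Icc 1 R).filter (fun d => d ∣ r) := by
      ext d
      simp only [Nat.mem_divisors, Finset.mem_filter, Finset.mem_Icc]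
      constructor
      · rintro ⟨h3, _⟩
        exact ⟨⟨Nat.pos_of_dvd_of_pos h3 (by omega), (Nat.le_of_dvd (by omega) h3).trans h2⟩, h3⟩
      · rintro ⟨_, h3⟩
        exact ⟨h3, by omega⟩
    rw [this, Finset.card_filter]
    push_cast
    rfl
  rw [Finset.sum_congr rfl h1, Finset.sum_comm]
  calc ∑ d ∈ Finset.Icc 1 R, ∑ r ∈ Finset.Icc 1 R, (if d ∣ r then (1 : ℝ) else 0)
      ≤ ∑ d ∈ Finset.Icc 1 R, (R : ℝ) * (1 / (d : ℝ)) := by
        refine Finset.sum_le_sum fun d hd => ?_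
        have hd1 := (Finset.mem_Icc.mp hd).1
        have h2 : ∑ r ∈ Finset.Icc 1 R, (if d ∣ r then (1 : ℝ) else 0) = (((Finset.Icc 1 R).filter (fun r => d ∣ r)).card : ℝ) := by
          rw [Finset.card_filter]; push_cast; rfl
        have h3 : ((Finset.Icc 1 R).filter (fun r => d ∣ r)).card = R / d := by
          have := Nat.Ioc_filter_dvd_card_eq_div R d
          rw [← this]
          rfl
        rw [h2, h3]
        have := @Nat.cast_div_le ℝ _ _ _ R d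
        calc ((R / d : ℕ) : ℝ) ≤ (R : ℝ) / d := this
          _ = _ := by ring
    _ = R * ∑ d ∈ Finset.Icc 1 R, (1 / (d : ℝ)) := by rw [Finset.mul_sum]
    _ ≤ _ := mul_le_mul_of_nonneg_left (harm R) (by positivity)

/-- block F0: `sig_phi` -/
theorem sig_phi : ∃ C : ℝ, 0 < C ∧ ∀ R : ℕ, 1 ≤ R → ∑ r ∈ (Finset.Icc 1 R).filter Squarefree, ((ArithmeticFunction.sigma 1 r : ℕ) : ℝ) / Nat.totient r ≤
    C * R * (1 + Real.log R) ^ 4 := by
  refine ⟨1, one_pos, fun R hR => ?_⟩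
  have hL : 0 ≤ Real.log R := Real.log_nonneg (by exact_mod_cast hR)
  have h1 : ∀ r ∈ (Finset.Icc 1 R).filter Squarefree, ((ArithmeticFunction.sigma 1 r : ℕ) : ℝ) / Nat.totient r ≤
      ((r.divisors.card : ℕ) : ℝ) * (1 + Real.log R) := by
    intro r hr
    obtain ⟨hr1, hr2⟩ := Finset.mem_filter.mp hr
    have hr0 := (Finset.mem_Icc.mp hr1).1
    have a1 := sig_le hr1
    have a2 := tot_ge hr2
    have hφ : (0 : ℝ) < Nat.totient r := by exact_mod_cast Nat.totient_pos.mpr (by omega)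
    rw [div_le_iff₀ hφ]
    calc ((ArithmeticFunction.sigma 1 r : ℕ) : ℝ) ≤ r * (1 + Real.log R) := a1
      _ ≤ (((r.divisors.card : ℕ) : ℝ) * (Nat.totient r : ℝ)) * (1 + Real.log R) := mul_le_mul_of_nonneg_right a2 (by linarith)
      _ = _ := by ring
  calc _ ≤ ∑ r ∈ (Finset.Icc 1 R).filter Squarefree, ((r.divisors.card : ℕ) : ℝ) * (1 + Real.log R) := Finset.sum_le_sum h1
    _ ≤ ∑ r ∈ Finset.Icc 1 R, ((r.divisors.card : ℕ) : ℝ) * (1 + Real.log R) :=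
        Finset.sum_le_sum_of_subset_of_nonneg (Finset.filter_subset _ _) fun _ _ _ => by positivity
    _ = (∑ r ∈ Finset.Icc 1 R, ((r.divisors.card : ℕ) : ℝ)) * (1 + Real.log R) := by rw [Finset.sum_mul]
    _ ≤ (R * (1 + Real.log R)) * (1 + Real.log R) := mul_le_mul_of_nonneg_right (sum_div R) (by linarith)
    _ = R * (1 + Real.log R) ^ 2 := by ring
    _ ≤ R * (1 + Real.log R) ^ 4 := mul_le_mul_of_nonneg_left (pow_le_pow_right₀ (by linarith) (by norm_num)) (by positivity)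
    _ = _ := by ring

/-! ## the sum of `|mf r| σ(r)` -/

private lemma mf_zero {r : ℕ} (h : ¬ Squarefree r) : mf r = 0 := by
  unfold mf
  rw [ArithmeticFunction.moebius_eq_zero_of_not_squarefree h]
  simp

private lemma mf_abs (r : ℕ) : |mf r| ≤ 1 / (Nat.totient r : ℝ) := by
  unfold mf
  rw [abs_div, Nat.abs_cast]
  have := ArithmeticFunction.abs_moebius_le_one (n := r)
  have h : |((ArithmeticFunction.moebius r : ℤ) : ℝ)| ≤ 1 := by exact_mod_cast this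
  exact div_le_div_of_nonneg_right h (by positivity)

/-- `S(R) = ∑_{r ≤ R} |mf r| σ(r)` -/
private noncomputable def SS (R : ℕ) : ℝ := ∑ r ∈ Finset.Icc 1 R, |mf r| * ((ArithmeticFunction.sigma 1 r : ℕ) : ℝ)

private lemma SS_nonneg (R : ℕ) : 0 ≤ SS R := Finset.sum_nonneg fun _ _ => by positivity

private lemma SS_le : ∃ C : ℝ, 0 < C ∧ ∀ R : ℕ, 1 ≤ R → SS R ≤ C * R * (1 + Real.log R) ^ 4 := by
  obtain ⟨C, hC, h⟩ := sig_phi
  refine ⟨C, hC, fun R hR => le_trans ?_ (h R hR)⟩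
  unfold SS
  rw [← Finset.sum_filter_add_sum_filter_not (Finset.Icc 1 R) Squarefree]
  have h0 : ∑ r ∈ (Finset.Icc 1 R).filter (fun r => ¬ Squarefree r), |mf r| * ((ArithmeticFunction.sigma 1 r : ℕ) : ℝ) = 0 := by
    refine Finset.sum_eq_zero fun r hr => ?_
    rw [mf_zero (Finset.mem_filter.mp hr).2]; simp
  rw [h0, add_zero]
  refine Finset.sum_le_sum fun r _ => ?_
  calc |mf r| * ((ArithmeticFunction.sigma 1 r : ℕ) : ℝ) ≤ (1 / (Nat.totient r : ℝ)) * ((ArithmeticFunction.sigma 1 r : ℕ) : ℝ) :=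
        mul_le_mul_of_nonneg_right (mf_abs r) (by positivity)
    _ = _ := by ring

/-- `b_1` as a sum over `R₀ < r ≤ R₁` -/
private lemma b1_eq {κ2 e T : ℝ} (hT : 1 ≤ T) (h : κ2 ≤ 1 / 2 - e) (n : ℤ) :
    b1 κ2 e T n = ∑ r ∈ Finset.Ioc ⌊T ^ κ2⌋₊ ⌊T ^ (1 / 2 - e)⌋₊, mf r * cr r n := by
  unfold b1 lamR
  have h1 : ⌊T ^ κ2⌋₊ ≤ ⌊T ^ (1 / 2 - e)⌋₊ := Nat.floor_le_floor (Real.rpow_le_rpow_of_exponent_le hT h)
  have h2 : Finset.Icc 1 ⌊T ^ (1 / 2 - e)⌋₊ = Finset.Icc 1 ⌊T ^ κ2⌋₊ ∪ Finset.Ioc ⌊T ^ κ2⌋₊ ⌊T ^ (1 / 2 - e)⌋₊ := by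
    ext r; simp only [Finset.mem_union, Finset.mem_Icc, Finset.mem_Ioc]; omega
  have h3 : Disjoint (Finset.Icc 1 ⌊T ^ κ2⌋₊) (Finset.Ioc ⌊T ^ κ2⌋₊ ⌊T ^ (1 / 2 - e)⌋₊) := by
    rw [Finset.disjoint_left]
    intro r hr hr'
    have := (Finset.mem_Icc.mp hr).2
    have := (Finset.mem_Ioc.mp hr').1
    omega
  rw [h2, Finset.sum_union h3]
  ring

/-- small power beats logarithms -/
private lemma log_pow_small {η C : ℝ} (hη : 0 < η) (m : ℕ) : ∀ᶠ T : ℝ in atTop, C * (1 + Real.log T) ^ m ≤ T ^ η := by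
  have h1 : (fun T : ℝ => (1 + Real.log T) ^ m) =o[atTop] fun T : ℝ => T ^ η := by
    have h2 : (fun T : ℝ => Real.log T) =o[atTop] fun T : ℝ => T ^ (η / (m + 1)) := isLittleO_log_rpow_atTop (by positivity)
    have h3 : (fun _ : ℝ => (1 : ℝ)) =o[atTop] fun T : ℝ => T ^ (η / (m + 1)) :=
      Asymptotics.isLittleO_const_left.mpr (Or.inr ((tendsto_rpow_atTop (show (0 : ℝ) < η / (m + 1) by positivity)).congr' (by
        filter_upwards [eventually_ge_atTop 0] with T hT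
        simp [abs_of_nonneg (Real.rpow_nonneg hT _)])))
    have h4 := (h3.add h2)
    rcases Nat.eq_zero_or_pos m with hm | hm
    · subst hm
      simp only [pow_zero]
      exact Asymptotics.isLittleO_const_left.mpr (Or.inr ((tendsto_rpow_atTop hη).congr' (by
        filter_upwards [eventually_ge_atTop 0] with T hT
        simp [abs_of_nonneg (Real.rpow_nonneg hT _)])))
    · have h5 := h4.pow hm
      refine h5.trans_isBigO (Asymptotics.IsBigO.of_bound 1 ?_)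
      filter_upwards [eventually_ge_atTop 1] with T hT
      have hT0 : (0 : ℝ) ≤ T := by linarith
      rw [one_mul, Real.norm_of_nonneg (by positivity), Real.norm_of_nonneg (by positivity), ← Real.rpow_natCast, ← Real.rpow_mul hT0]
      refine Real.rpow_le_rpow_of_exponent_le hT ?_
      rw [div_mul_eq_mul_div, div_le_iff₀ (by positivity)]
      nlinarith
  have h6 := h1.def (show (0 : ℝ) < 1 / (|C| + 1) by positivity)
  filter_upwards [h6, eventually_ge_atTop 1] with T hT hT1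
  have hl : 0 ≤ Real.log T := Real.log_nonneg hT1
  have hT0 : (0 : ℝ) ≤ T := by linarith
  rw [Real.norm_of_nonneg (by positivity), Real.norm_of_nonneg (Real.rpow_nonneg hT0 _)] at hT
  calc C * (1 + Real.log T) ^ m ≤ (|C| + 1) * (1 + Real.log T) ^ m :=
        mul_le_mul_of_nonneg_right (by linarith [le_abs_self C]) (by positivity)
    _ ≤ (|C| + 1) * (1 / (|C| + 1) * T ^ η) := mul_le_mul_of_nonneg_left hT (by positivity)
    _ = T ^ η := by field_simp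

private lemma SS_small {e η : ℝ} (he : e < 1 / 2) (he0 : 0 ≤ e) (hη : 0 < η) : ∀ᶠ T : ℝ in atTop, SS ⌊T ^ (1 / 2 - e)⌋₊ ≤ T ^ (1 / 2 - e + η) := by
  obtain ⟨C, hC, h⟩ := SS_le
  filter_upwards [log_pow_small (C := C) hη 4, eventually_ge_atTop 1] with T hT hT1
  have hT0 : (0 : ℝ) < T := by linarith
  have h1 : (1 : ℝ) ≤ T ^ (1 / 2 - e) := Real.one_le_rpow hT1 (by linarith)
  have h2 : 1 ≤ ⌊T ^ (1 / 2 - e)⌋₊ := by
    rw [Nat.one_le_floor_iff]; exact h1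
  have h3 : ((⌊T ^ (1 / 2 - e)⌋₊ : ℕ) : ℝ) ≤ T ^ (1 / 2 - e) := Nat.floor_le (by positivity)
  have h4 : Real.log ⌊T ^ (1 / 2 - e)⌋₊ ≤ Real.log T := by
    apply Real.log_le_log (by exact_mod_cast h2)
    calc ((⌊T ^ (1 / 2 - e)⌋₊ : ℕ) : ℝ) ≤ T ^ (1 / 2 - e) := h3
      _ ≤ T ^ (1 : ℝ) := Real.rpow_le_rpow_of_exponent_le hT1 (by linarith)
      _ = T := Real.rpow_one T
  have h5 : 0 ≤ Real.log ⌊T ^ (1 / 2 - e)⌋₊ := Real.log_nonneg (by exact_mod_cast h2)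
  calc SS ⌊T ^ (1 / 2 - e)⌋₊ ≤ C * ⌊T ^ (1 / 2 - e)⌋₊ * (1 + Real.log ⌊T ^ (1 / 2 - e)⌋₊) ^ 4 := h _ h2
    _ ≤ C * T ^ (1 / 2 - e) * (1 + Real.log T) ^ 4 := by gcongr
    _ = T ^ (1 / 2 - e) * (C * (1 + Real.log T) ^ 4) := by ring
    _ ≤ T ^ (1 / 2 - e) * T ^ η := mul_le_mul_of_nonneg_left hT (by positivity)
    _ = _ := by rw [← Real.rpow_add hT0]

/-- the sum of `|mf r| σ(r)` -/
theorem ss_small {e η : ℝ} (he : e < 1 / 2) (he0 : 0 ≤ e) (hη : 0 < η) : ∀ᶠ T : ℝ in atTop,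
    ∑ r ∈ Finset.Icc 1 ⌊T ^ (1 / 2 - e)⌋₊, |mf r| * ((ArithmeticFunction.sigma 1 r : ℕ) : ℝ) ≤ T ^ (1 / 2 - e + η) :=
  SS_small he he0 hη

/-- block F0: `TI1` -/
theorem TI1 {κ2 e : ℝ} (h2 : 0 < κ2) (he : 0 < e) (h : κ2 + e < 1 / 2) : ∀ᶠ T : ℝ in atTop,
    ∀ (k : ℤ) (d N₁ N₂ : ℕ), 1 ≤ d → (d : ℝ) ≤ T ^ (κ2 / 2) → N₁ ≤ N₂ → |∑ m ∈ Finset.Ioc N₁ N₂, b1 κ2 e T (d * m + k)| ≤ T ^ (1 / 2 : ℝ) := by
  filter_upwards [SS_small (e := e) (by linarith) he.le he, eventually_ge_atTop 1] with T hT hT1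
  intro k d N₁ N₂ hd hdT hN
  have e1 : ∑ m ∈ Finset.Ioc N₁ N₂, b1 κ2 e T (d * m + k) =
      ∑ r ∈ Finset.Ioc ⌊T ^ κ2⌋₊ ⌊T ^ (1 / 2 - e)⌋₊, mf r * ∑ m ∈ Finset.Ioc N₁ N₂, cr r (d * m + k) := by
    have e0 : ∀ m ∈ Finset.Ioc N₁ N₂, b1 κ2 e T (d * m + k) =
        ∑ r ∈ Finset.Ioc ⌊T ^ κ2⌋₊ ⌊T ^ (1 / 2 - e)⌋₊, mf r * cr r (d * m + k) :=
      fun m _ => b1_eq hT1 (by linarith) (d * m + k)
    rw [Finset.sum_congr rfl e0, Finset.sum_comm]
    refine Finset.sum_congr rfl fun r _ => ?_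
    rw [Finset.mul_sum]
  rw [e1]
  calc |∑ r ∈ Finset.Ioc ⌊T ^ κ2⌋₊ ⌊T ^ (1 / 2 - e)⌋₊, mf r * ∑ m ∈ Finset.Ioc N₁ N₂, cr r (d * m + k)|
      ≤ ∑ r ∈ Finset.Ioc ⌊T ^ κ2⌋₊ ⌊T ^ (1 / 2 - e)⌋₊, |mf r| * ((ArithmeticFunction.sigma 1 r : ℕ) : ℝ) := by
        refine (Finset.abs_sum_le_sum_abs _ _).trans (Finset.sum_le_sum fun r hr => ?_)
        rw [abs_mul]
        refine mul_le_mul_of_nonneg_left ?_ (abs_nonneg _)
        have hr1 := (Finset.mem_Ioc.mp hr).1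
        have hr0 : 0 < r := by omega
        have hndvd : ¬ r ∣ d := by
          intro hrd
          have a1 : r ≤ d := Nat.le_of_dvd (by omega) hrd
          have a2 : T ^ κ2 < r := (Nat.floor_lt (by positivity)).mp hr1
          have a3 : T ^ (κ2 / 2) ≤ T ^ κ2 := Real.rpow_le_rpow_of_exponent_le hT1 (by linarith)
          have a4 : (r : ℝ) ≤ d := by exact_mod_cast a1
          linarith
        have := cr_prog (r := r) (q := d) hr0 (by omega) k hN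
        rw [if_neg hndvd, zero_mul, sub_zero] at this
        exact this
    _ ≤ SS ⌊T ^ (1 / 2 - e)⌋₊ := by
        unfold SS
        refine Finset.sum_le_sum_of_subset_of_nonneg (fun r hr => ?_) fun _ _ _ => by positivity
        rw [Finset.mem_Ioc] at hr
        exact Finset.mem_Icc.mpr ⟨by omega, hr.2⟩
    _ ≤ T ^ (1 / 2 - e + e) := hT
    _ = _ := by rw [sub_add_cancel]

/-- correlations of `b_1` with itself, any shift -/
theorem b1_corr {κ2 e T : ℝ} (hT1 : 1 ≤ T) (h : κ2 ≤ 1 / 2 - e) (k : ℤ) {N₁ N₂ : ℕ} (hN : N₁ ≤ N₂) :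
    |∑ n ∈ Finset.Ioc N₁ N₂, b1 κ2 e T n * b1 κ2 e T (n + k) -
      (∑ r ∈ Finset.Ioc ⌊T ^ κ2⌋₊ ⌊T ^ (1 / 2 - e)⌋₊, mf r ^ 2 * cr r k) * ((N₂ : ℝ) - N₁)| ≤
      2 * (∑ r ∈ Finset.Icc 1 ⌊T ^ (1 / 2 - e)⌋₊, |mf r| * ((ArithmeticFunction.sigma 1 r : ℕ) : ℝ)) ^ 2 := by
  set I := Finset.Ioc ⌊T ^ κ2⌋₊ ⌊T ^ (1 / 2 - e)⌋₊ with hI
  have e1 : ∑ n ∈ Finset.Ioc N₁ N₂, b1 κ2 e T n * b1 κ2 e T (n + k) =
      ∑ r ∈ I, ∑ r' ∈ I, mf r * mf r' * ∑ n ∈ Finset.Ioc N₁ N₂, cr r n * cr r' (n + k) := by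
    have a1 : ∀ n ∈ Finset.Ioc N₁ N₂, b1 κ2 e T n * b1 κ2 e T (n + k) = ∑ r ∈ I, ∑ r' ∈ I, mf r * mf r' * (cr r n * cr r' (n + k)) := by
      intro n _
      rw [b1_eq hT1 h, b1_eq hT1 h, Finset.sum_mul_sum]
      refine Finset.sum_congr rfl fun r _ => Finset.sum_congr rfl fun r' _ => by ring
    rw [Finset.sum_congr rfl a1, Finset.sum_comm]
    refine Finset.sum_congr rfl fun r _ => ?_
    rw [Finset.sum_comm]
    refine Finset.sum_congr rfl fun r' _ => ?_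
    rw [Finset.mul_sum]
  have e2 : (∑ r ∈ I, mf r ^ 2 * cr r k) * ((N₂ : ℝ) - N₁) =
      ∑ r ∈ I, ∑ r' ∈ I, mf r * mf r' * ((if r = r' then cr r k else 0) * ((N₂ : ℝ) - N₁)) := by
    rw [Finset.sum_mul]
    refine Finset.sum_congr rfl fun r hr => ?_
    have : ∀ r' ∈ I, mf r * mf r' * ((if r = r' then cr r k else 0) * ((N₂ : ℝ) - N₁)) =
        if r = r' then mf r * mf r' * (cr r k * ((N₂ : ℝ) - N₁)) else 0 := by
      intro r' _
      split_ifs <;> ring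
    rw [Finset.sum_congr rfl this, Finset.sum_ite_eq, if_pos hr]
    ring
  rw [e1, e2, ← Finset.sum_sub_distrib]
  calc |∑ r ∈ I, (∑ r' ∈ I, mf r * mf r' * ∑ n ∈ Finset.Ioc N₁ N₂, cr r n * cr r' (n + k) -
        ∑ r' ∈ I, mf r * mf r' * ((if r = r' then cr r k else 0) * ((N₂ : ℝ) - N₁)))|
      ≤ ∑ r ∈ I, ∑ r' ∈ I, (|mf r| * ((ArithmeticFunction.sigma 1 r : ℕ) : ℝ)) * (|mf r'| * ((ArithmeticFunction.sigma 1 r' : ℕ) : ℝ)) * 2 := by
        refine (Finset.abs_sum_le_sum_abs _ _).trans (Finset.sum_le_sum fun r _ => ?_)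
        rw [← Finset.sum_sub_distrib]
        refine (Finset.abs_sum_le_sum_abs _ _).trans (Finset.sum_le_sum fun r' _ => ?_)
        rw [← mul_sub, abs_mul, abs_mul]
        by_cases hr : Squarefree r
        · by_cases hr' : Squarefree r'
          · have := corr hr hr' k hN
            calc |mf r| * |mf r'| * _ ≤ |mf r| * |mf r'| * (2 * ((ArithmeticFunction.sigma 1 r : ℕ) : ℝ) * ((ArithmeticFunction.sigma 1 r' : ℕ) : ℝ)) :=
                  mul_le_mul_of_nonneg_left this (by positivity)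
              _ = _ := by ring
          · rw [mf_zero hr']; simp
        · rw [mf_zero hr]; simp
    _ = 2 * ((∑ r ∈ I, |mf r| * ((ArithmeticFunction.sigma 1 r : ℕ) : ℝ)) * (∑ r ∈ I, |mf r| * ((ArithmeticFunction.sigma 1 r : ℕ) : ℝ))) := by
        rw [Finset.sum_mul_sum, Finset.mul_sum]
        refine Finset.sum_congr rfl fun r _ => ?_
        rw [Finset.mul_sum]
        refine Finset.sum_congr rfl fun r' _ => by ring
    _ ≤ _ := by
        have h0 : ∑ r ∈ I, |mf r| * ((ArithmeticFunction.sigma 1 r : ℕ) : ℝ) ≤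
            ∑ r ∈ Finset.Icc 1 ⌊T ^ (1 / 2 - e)⌋₊, |mf r| * ((ArithmeticFunction.sigma 1 r : ℕ) : ℝ) := by
          refine Finset.sum_le_sum_of_subset_of_nonneg (fun r hr => ?_) fun _ _ _ => by positivity
          rw [hI, Finset.mem_Ioc] at hr
          exact Finset.mem_Icc.mpr ⟨by omega, hr.2⟩
        have h1 : 0 ≤ ∑ r ∈ I, |mf r| * ((ArithmeticFunction.sigma 1 r : ℕ) : ℝ) := Finset.sum_nonneg fun _ _ => by positivity
        rw [sq]
        have := mul_le_mul h0 h0 h1 (h1.trans h0)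
        linarith

end Pool.Agent.AP
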